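import Pool.Agent.Helper54.SAW2.Stmts

set_option autoImplicit false

/-!
# Block 7: the abstract double counting
-/

namespace Pool.Agent.Helper26.SAW2

open Pool.Agent.Helper54.SAW Pool.Agent.Helper54.SAW2

section gen

variable {α : Type*} (n : ℕ) (f : α → ℕ → α) (RT LT : α → ℕ → Prop) (dep : α → ℕ → ℕ)
  (F : Finset α) (θ : ℕ)

open Classical in
/-- counted toggles of `P` with respect to `S` -/
noncomputable def tog (S : Finset α) (P : α) : Finset ℕ :=
  (Finset.range (n + 1)).filter (fun x => f P x ∈ F ∧ RT (f P x) x ∧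
    ∃ y, x < y ∧ y ≤ n ∧ LT (f P x) y ∧ f (f P x) y ∈ S)

/-- weight -/
noncomputable def wt (P : α) (x : ℕ) : ℝ := (1 / 2 : ℝ) ^ (dep P x / θ)

/-- weighted number of toggles -/
noncomputable def gS (S : Finset α) (P : α) : ℝ := ∑ x ∈ tog n f RT LT F S P, wt dep θ P x

/-- total weight -/
noncomputable def GS (S : Finset α) : ℝ := ∑ P ∈ S, gS n f RT LT dep F θ S P

lemma wt_pos (P : α) (x : ℕ) : 0 < wt dep θ P x := by
  unfold wt; positivity

lemma wt_le_one (P : α) (x : ℕ) : wt dep θ P x ≤ 1 := by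
  unfold wt
  exact pow_le_one₀ (by norm_num) (by norm_num)

lemma tog_mono {S T : Finset α} (h : S ⊆ T) (P : α) :
    tog n f RT LT F S P ⊆ tog n f RT LT F T P := by
  intro x hx
  simp only [tog, Finset.mem_filter] at hx ⊢
  obtain ⟨h1, h2, h3, y, h4, h5, h6, h7⟩ := hx
  exact ⟨h1, h2, h3, y, h4, h5, h6, h h7⟩

lemma gS_mono {S T : Finset α} (h : S ⊆ T) (P : α) :
    gS n f RT LT dep F θ S P ≤ gS n f RT LT dep F θ T P := by
  unfold gS
  exact Finset.sum_le_sum_of_subset_of_nonneg (tog_mono n f RT LT F h P)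
    (fun x _ _ => (wt_pos dep θ P x).le)

lemma gS_nonneg (S : Finset α) (P : α) : 0 ≤ gS n f RT LT dep F θ S P := by
  unfold gS
  exact Finset.sum_nonneg (fun x _ => (wt_pos dep θ P x).le)

open Classical in
lemma gS_le (S : Finset α) (P : α) : gS n f RT LT dep F θ S P ≤ n + 1 := by
  unfold gS
  calc ∑ x ∈ tog n f RT LT F S P, wt dep θ P x ≤ ∑ _x ∈ tog n f RT LT F S P, (1 : ℝ) :=
        Finset.sum_le_sum (fun x _ => wt_le_one dep θ P x)
    _ = ((tog n f RT LT F S P).card : ℝ) := by simp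
    _ ≤ ((Finset.range (n + 1)).card : ℝ) := by
        exact_mod_cast Finset.card_le_card (by unfold tog; exact Finset.filter_subset _ _)
    _ = n + 1 := by simp

open Classical in
lemma GS_erase {S : Finset α} {P : α} (hP : P ∈ S) :
    GS n f RT LT dep F θ (S.erase P) ≤ GS n f RT LT dep F θ S - gS n f RT LT dep F θ S P := by
  have h1 : GS n f RT LT dep F θ S
      = gS n f RT LT dep F θ S P + ∑ Q ∈ S.erase P, gS n f RT LT dep F θ S Q := by
    unfold GS
    rw [Finset.add_sum_erase _ _ hP]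
  have h2 : GS n f RT LT dep F θ (S.erase P) ≤ ∑ Q ∈ S.erase P, gS n f RT LT dep F θ S Q := by
    unfold GS
    exact Finset.sum_le_sum (fun Q _ => gS_mono n f RT LT dep F θ (Finset.erase_subset _ _) Q)
  linarith

open Classical in
/-- (i) -/
lemma card_sub_le {C : Finset α} (hinv : ∀ a t, f (f a t) t = a) (v : α → ℕ)
    (hv : ∀ P ∈ C, v P ≤ n ∧ f P (v P) ∈ F ∧ RT (f P (v P)) (v P) ∧ LT (f P (v P)) (v P) ∧
      dep P (v P) = 0) {S : Finset α} (hS : S ⊆ C) :
    (S.card : ℝ) - F.card ≤ GS n f RT LT dep F θ S := by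
  set A : Finset α := S.filter (fun P => ∃ Q ∈ S, f Q (v Q) = f P (v P) ∧ v P < v Q) with hA
  set B : Finset α := S.filter (fun P => ¬ ∃ Q ∈ S, f Q (v Q) = f P (v P) ∧ v P < v Q) with hB
  have hAB : A.card + B.card = S.card := by
    rw [hA, hB]
    exact Finset.card_filter_add_card_filter_not _
  have hBF : B.card ≤ F.card := by
    refine Finset.card_le_card_of_injOn (fun P => f P (v P)) ?_ ?_
    · intro P hP
      have hP' : P ∈ S := (Finset.mem_filter.1 (show P ∈ B by simpa using hP)).1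
      exact (hv P (hS hP')).2.1
    · intro P hP Q hQ hPQ
      have hP1 := Finset.mem_filter.1 (show P ∈ B by simpa using hP)
      have hQ1 := Finset.mem_filter.1 (show Q ∈ B by simpa using hQ)
      simp only at hPQ
      have h1 : ¬ v P < v Q := fun h => hP1.2 ⟨Q, hQ1.1, hPQ.symm, h⟩
      have h2 : ¬ v Q < v P := fun h => hQ1.2 ⟨P, hP1.1, hPQ, h⟩
      have h3 : v P = v Q := by omega
      calc P = f (f P (v P)) (v P) := (hinv _ _).symm
        _ = f (f Q (v Q)) (v Q) := by rw [hPQ, h3]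
        _ = Q := hinv _ _
  have hAG : (A.card : ℝ) ≤ GS n f RT LT dep F θ S := by
    have h1 : (A.card : ℝ) = ∑ _P ∈ A, (1 : ℝ) := by simp
    rw [h1]
    unfold GS
    refine le_trans (Finset.sum_le_sum (f := fun _ => (1 : ℝ))
      (g := fun P => gS n f RT LT dep F θ S P) ?_)
      (Finset.sum_le_sum_of_subset_of_nonneg (Finset.filter_subset _ _)
        (fun P _ _ => gS_nonneg n f RT LT dep F θ S P))
    intro P hP
    obtain ⟨hPS, Q, hQS, hQ1, hQ2⟩ := Finset.mem_filter.1 hP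
    obtain ⟨a1, a2, a3, a4, a5⟩ := hv P (hS hPS)
    obtain ⟨b1, b2, b3, b4, b5⟩ := hv Q (hS hQS)
    have hmem : v P ∈ tog n f RT LT F S P := by
      simp only [tog, Finset.mem_filter, Finset.mem_range]
      refine ⟨by omega, a2, a3, v Q, hQ2, b1, ?_, ?_⟩
      · rw [← hQ1]; exact b4
      · rw [← hQ1, hinv]; exact hQS
    have hw : wt dep θ P (v P) = 1 := by
      unfold wt; rw [a5]; simp
    show (1 : ℝ) ≤ gS n f RT LT dep F θ S P
    unfold gS
    rw [← hw]
    exact Finset.single_le_sum (f := fun x => wt dep θ P x)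
      (fun x _ => (wt_pos dep θ P x).le) hmem
  have h2 : (A.card : ℝ) + B.card = S.card := by exact_mod_cast hAB
  have h3 : (B.card : ℝ) ≤ F.card := by exact_mod_cast hBF
  linarith

open Classical in
/-- toggles seen from the folded walk -/
noncomputable def itog (S : Finset α) (δ : α) : Finset ℕ :=
  (Finset.range (n + 1)).filter (fun x => f δ x ∈ S ∧ RT δ x ∧
    ∃ y, x < y ∧ y ≤ n ∧ LT δ y ∧ f δ y ∈ S)

open Classical in
lemma GS_eq (hinv : ∀ a t, f (f a t) t = a) (S : Finset α) :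
    GS n f RT LT dep F θ S =
      ∑ δ ∈ F, ∑ x ∈ itog n f RT LT S δ, wt dep θ (f δ x) x := by
  unfold GS gS
  rw [Finset.sum_sigma', Finset.sum_sigma']
  refine Finset.sum_bij' (fun p _ => ⟨f p.1 p.2, p.2⟩) (fun p _ => ⟨f p.1 p.2, p.2⟩) ?_ ?_ ?_ ?_ ?_
  · rintro ⟨P, x⟩ h
    simp only [Finset.mem_sigma, tog, itog, Finset.mem_filter, Finset.mem_range] at h ⊢
    obtain ⟨hP, hx, h1, h2, h3⟩ := h
    refine ⟨h1, hx, ?_, h2, h3⟩
    rw [hinv]; exact hP
  · rintro ⟨δ, x⟩ h
    simp only [Finset.mem_sigma, tog, itog, Finset.mem_filter, Finset.mem_range] at h ⊢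
    obtain ⟨hδ, hx, h1, h2, h3⟩ := h
    rw [hinv]
    exact ⟨h1, hx, hδ, h2, h3⟩
  · rintro ⟨P, x⟩ _
    simp [hinv]
  · rintro ⟨P, x⟩ _
    simp [hinv]
  · rintro ⟨P, x⟩ _
    simp [hinv]

open Classical in
/-- (ii) for one folded walk -/
lemma inner_le {C : Finset α} {K : ℕ} (hθ : 1 ≤ θ) (hK : 8 * (n + 1) ≤ 2 ^ K)
    (hinv : ∀ a t, f (f a t) t = a) (hcomm : ∀ a s t, f (f a s) t = f (f a t) s)
    (hcl : ∀ δ ∈ F, ∀ x y, x < y → y ≤ n → RT δ x → LT δ y → f δ x ∈ C → f δ y ∈ C →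
      dep (f δ x) x < K * θ →
      f (f δ x) y ∈ F ∧ RT (f (f δ x) y) x ∧ LT (f (f δ x) y) y ∧
        dep (f δ y) x ≤ dep (f δ x) x + θ)
    {S : Finset α} (hS : S ⊆ C) {m : ℝ} (hm0 : 0 ≤ m)
    (hm : ∀ P ∈ S, gS n f RT LT dep F θ S P ≤ m) {δ : α} (hδ : δ ∈ F) :
    ∑ x ∈ itog n f RT LT S δ, wt dep θ (f δ x) x ≤ 2 * m + 1 / 8 := by
  by_cases hne : (itog n f RT LT S δ).Nonempty
  swap
  · rw [Finset.not_nonempty_iff_eq_empty] at hne
    rw [hne, Finset.sum_empty]
    linarith
  -- the largest `y`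
  set Ys : Finset ℕ := (Finset.range (n + 1)).filter (fun y => LT δ y ∧ f δ y ∈ S) with hYs
  have hYne : Ys.Nonempty := by
    obtain ⟨x, hx⟩ := hne
    simp only [itog, Finset.mem_filter, Finset.mem_range] at hx
    obtain ⟨_, _, _, y, _, h2, h3, h4⟩ := hx
    exact ⟨y, by simp only [hYs, Finset.mem_filter, Finset.mem_range]; exact ⟨by omega, h3, h4⟩⟩
  set Y := Ys.max' hYne with hY
  have hYmem : Y ∈ Ys := Finset.max'_mem _ _
  have hYmem' : Y < n + 1 ∧ LT δ Y ∧ f δ Y ∈ S := by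
    simpa only [hYs, Finset.mem_filter, Finset.mem_range] using hYmem
  obtain ⟨hYn, hYL, hYS⟩ := hYmem'
  have hxY : ∀ x ∈ itog n f RT LT S δ, x < Y := by
    intro x hx
    simp only [itog, Finset.mem_filter, Finset.mem_range] at hx
    obtain ⟨_, _, _, y, h1, h2, h3, h4⟩ := hx
    have : y ≤ Y := Finset.le_max' _ _ (by
      simp only [hYs, Finset.mem_filter, Finset.mem_range]; exact ⟨by omega, h3, h4⟩)
    omega
  set I1 := (itog n f RT LT S δ).filter (fun x => dep (f δ x) x < K * θ) with hI1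
  set I2 := (itog n f RT LT S δ).filter (fun x => ¬ dep (f δ x) x < K * θ) with hI2
  have hsplit : ∑ x ∈ itog n f RT LT S δ, wt dep θ (f δ x) x
      = ∑ x ∈ I1, wt dep θ (f δ x) x + ∑ x ∈ I2, wt dep θ (f δ x) x := by
    rw [hI1, hI2, Finset.sum_filter_add_sum_filter_not]
  have h1 : ∑ x ∈ I1, wt dep θ (f δ x) x ≤ 2 * m := by
    have hkey : ∀ x ∈ I1, x ∈ tog n f RT LT F S (f δ Y) ∧
        wt dep θ (f δ x) x ≤ 2 * wt dep θ (f δ Y) x := by
      intro x hx
      obtain ⟨hxi, hxd⟩ := Finset.mem_filter.1 hx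
      have hxY' := hxY x hxi
      simp only [itog, Finset.mem_filter, Finset.mem_range] at hxi
      obtain ⟨hxn, hxS, hxR, _⟩ := hxi
      obtain ⟨c1, c2, c3, c4⟩ := hcl δ hδ x Y hxY' (by omega) hxR hYL (hS hxS) (hS hYS) hxd
      refine ⟨?_, ?_⟩
      · simp only [tog, Finset.mem_filter, Finset.mem_range]
        refine ⟨hxn, ?_, ?_, Y, hxY', by omega, ?_, ?_⟩
        · rw [hcomm]; exact c1
        · rw [hcomm]; exact c2
        · rw [hcomm]; exact c3
        · rw [hcomm δ Y x, hinv]; exact hxS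
      · unfold wt
        have hd : dep (f δ Y) x / θ ≤ dep (f δ x) x / θ + 1 := by
          calc dep (f δ Y) x / θ ≤ (dep (f δ x) x + θ) / θ := Nat.div_le_div_right c4
            _ = dep (f δ x) x / θ + 1 := Nat.add_div_right _ (by omega)
        have : (1 / 2 : ℝ) ^ (dep (f δ x) x / θ + 1) ≤ (1 / 2 : ℝ) ^ (dep (f δ Y) x / θ) :=
          pow_le_pow_of_le_one (by norm_num) (by norm_num) hd
        rw [pow_succ] at this
        linarith
    calc ∑ x ∈ I1, wt dep θ (f δ x) x ≤ ∑ x ∈ I1, 2 * wt dep θ (f δ Y) x :=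
          Finset.sum_le_sum (fun x hx => (hkey x hx).2)
      _ = 2 * ∑ x ∈ I1, wt dep θ (f δ Y) x := by rw [Finset.mul_sum]
      _ ≤ 2 * gS n f RT LT dep F θ S (f δ Y) := by
          unfold gS
          refine mul_le_mul_of_nonneg_left ?_ (by norm_num)
          exact Finset.sum_le_sum_of_subset_of_nonneg (fun x hx => (hkey x hx).1)
            (fun x _ _ => (wt_pos dep θ _ x).le)
      _ ≤ 2 * m := by
          have := hm _ hYS
          linarith
  have h2 : ∑ x ∈ I2, wt dep θ (f δ x) x ≤ 1 / 8 := by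
    have hw : ∀ x ∈ I2, wt dep θ (f δ x) x ≤ (1 / 2 : ℝ) ^ K := by
      intro x hx
      obtain ⟨_, hxd⟩ := Finset.mem_filter.1 hx
      unfold wt
      refine pow_le_pow_of_le_one (by norm_num) (by norm_num) ?_
      rw [Nat.le_div_iff_mul_le (by omega)]
      omega
    have hcard : (I2.card : ℝ) ≤ n + 1 := by
      have : I2.card ≤ (Finset.range (n + 1)).card := by
        refine Finset.card_le_card ?_
        intro x hx
        have := (Finset.mem_filter.1 hx).1
        unfold itog at this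
        exact (Finset.mem_filter.1 this).1
      rw [Finset.card_range] at this
      exact_mod_cast this
    have hK' : (8 : ℝ) * (n + 1) ≤ 2 ^ K := by exact_mod_cast hK
    calc ∑ x ∈ I2, wt dep θ (f δ x) x ≤ ∑ _x ∈ I2, (1 / 2 : ℝ) ^ K := Finset.sum_le_sum hw
      _ = (I2.card : ℝ) * (1 / 2 : ℝ) ^ K := by rw [Finset.sum_const, nsmul_eq_mul]
      _ ≤ (n + 1) * (1 / 2 : ℝ) ^ K := mul_le_mul_of_nonneg_right hcard (by positivity)
      _ ≤ 1 / 8 := by
          rw [one_div, inv_pow, ← div_eq_mul_inv, div_le_div_iff₀ (by positivity) (by norm_num)]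
          linarith
  rw [hsplit]
  linarith

open Classical in
/-- (ii) -/
lemma GS_le {C : Finset α} {K : ℕ} (hθ : 1 ≤ θ) (hK : 8 * (n + 1) ≤ 2 ^ K)
    (hinv : ∀ a t, f (f a t) t = a) (hcomm : ∀ a s t, f (f a s) t = f (f a t) s)
    (hcl : ∀ δ ∈ F, ∀ x y, x < y → y ≤ n → RT δ x → LT δ y → f δ x ∈ C → f δ y ∈ C →
      dep (f δ x) x < K * θ →
      f (f δ x) y ∈ F ∧ RT (f (f δ x) y) x ∧ LT (f (f δ x) y) y ∧
        dep (f δ y) x ≤ dep (f δ x) x + θ)
    {S : Finset α} (hS : S ⊆ C) {m : ℝ} (hm0 : 0 ≤ m)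
    (hm : ∀ P ∈ S, gS n f RT LT dep F θ S P ≤ m) :
    GS n f RT LT dep F θ S ≤ F.card * (2 * m + 1 / 8) := by
  rw [GS_eq n f RT LT dep F θ hinv S]
  calc ∑ δ ∈ F, ∑ x ∈ itog n f RT LT S δ, wt dep θ (f δ x) x ≤ ∑ _δ ∈ F, (2 * m + 1 / 8) :=
        Finset.sum_le_sum (fun δ hδ =>
          inner_le n f RT LT dep F θ hθ hK hinv hcomm hcl hS hm0 hm hδ)
    _ = F.card * (2 * m + 1 / 8) := by rw [Finset.sum_const, nsmul_eq_mul]

open Classical in
/-- (iii) -/
lemma removal {C : Finset α} {K : ℕ} (hθ : 1 ≤ θ) (hK : 8 * (n + 1) ≤ 2 ^ K)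
    (hinv : ∀ a t, f (f a t) t = a) (hcomm : ∀ a s t, f (f a s) t = f (f a t) s) (v : α → ℕ)
    (hv : ∀ P ∈ C, v P ≤ n ∧ f P (v P) ∈ F ∧ RT (f P (v P)) (v P) ∧ LT (f P (v P)) (v P) ∧
      dep P (v P) = 0)
    (hcl : ∀ δ ∈ F, ∀ x y, x < y → y ≤ n → RT δ x → LT δ y → f δ x ∈ C → f δ y ∈ C →
      dep (f δ x) x < K * θ →
      f (f δ x) y ∈ F ∧ RT (f (f δ x) y) x ∧ LT (f (f δ x) y) y ∧
        dep (f δ y) x ≤ dep (f δ x) x + θ)
    (hF : 1 ≤ F.card) :
    ∀ (N : ℕ) (S : Finset α), S.card = N → S ⊆ C → (F.card : ℝ) ≤ GS n f RT LT dep F θ S →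
      (S.card : ℝ) ≤ 2 * F.card + 1
        + 8 / 3 * F.card * Real.log (GS n f RT LT dep F θ S / F.card) := by
  have hφ : (1 : ℝ) ≤ F.card := by exact_mod_cast hF
  intro N
  induction N with
  | zero =>
    intro S hS0 hS hG
    have h1 : 0 ≤ Real.log (GS n f RT LT dep F θ S / F.card) :=
      Real.log_nonneg (by rw [le_div_iff₀ (by linarith)]; linarith)
    have h2 : (S.card : ℝ) = 0 := by exact_mod_cast hS0
    rw [h2]
    positivity
  | succ N ih =>
    intro S hSN hS hG
    have hlog : 0 ≤ Real.log (GS n f RT LT dep F θ S / F.card) :=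
      Real.log_nonneg (by rw [le_div_iff₀ (by linarith)]; linarith)
    by_cases hsmall : (S.card : ℝ) ≤ 2 * F.card + 1
    · have : 0 ≤ 8 / 3 * (F.card : ℝ) * Real.log (GS n f RT LT dep F θ S / F.card) := by
        positivity
      linarith
    push Not at hsmall
    -- choose the maximal element
    have hSne : S.Nonempty := by
      rw [← Finset.card_pos]; omega
    obtain ⟨P, hP, hmax⟩ := Finset.exists_max_image S
      (fun P => gS n f RT LT dep F θ S P) hSne
    have hGle := GS_le n f RT LT dep F θ hθ hK hinv hcomm hcl hS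
      (gS_nonneg n f RT LT dep F θ S P) hmax
    set G := GS n f RT LT dep F θ S with hGdef
    set φ : ℝ := (F.card : ℝ) with hφdef
    have hg : 3 / 8 * (G / φ) ≤ gS n f RT LT dep F θ S P := by
      have h1 : G / φ ≤ 2 * gS n f RT LT dep F θ S P + 1 / 8 := by
        rw [div_le_iff₀ (by linarith)]
        linarith
      have h2 : 1 ≤ G / φ := by rw [le_div_iff₀ (by linarith)]; linarith
      linarith
    have hE := GS_erase n f RT LT dep F θ hP
    rw [← hGdef] at hE
    set G' := GS n f RT LT dep F θ (S.erase P) with hG'def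
    have hcard : (S.erase P).card = N := by
      rw [Finset.card_erase_of_mem hP, hSN]; rfl
    have hcard' : ((S.erase P).card : ℝ) = (S.card : ℝ) - 1 := by
      have : S.card = (S.erase P).card + 1 := by rw [hcard, hSN]
      rw [this]; push_cast; ring
    have hG'φ : φ ≤ G' := by
      have := card_sub_le n f RT LT dep F θ hinv v hv
        (S := S.erase P) ((Finset.erase_subset _ _).trans hS)
      rw [hcard'] at this
      linarith
    have hih := ih (S.erase P) hcard ((Finset.erase_subset _ _).trans hS) hG'φ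
    rw [hcard'] at hih
    have hG'le : G' / φ ≤ (G / φ) * (1 - 3 / 8 / φ) := by
      rw [div_le_iff₀ (by linarith)]
      have h1 : G / φ * (1 - 3 / 8 / φ) * φ = G - 3 / 8 * (G / φ) := by
        field_simp
      rw [h1]
      linarith
    have hφpos : 0 < φ := by linarith
    have hG'pos : 0 < G' / φ := by
      have : 0 < G' := by linarith
      positivity
    have hGpos : 0 < G / φ := by
      have : 0 < G := by linarith
      positivity
    have hu : 0 < 1 - 3 / 8 / φ := by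
      by_contra hcon
      push Not at hcon
      have : (G / φ) * (1 - 3 / 8 / φ) ≤ 0 := mul_nonpos_of_nonneg_of_nonpos hGpos.le hcon
      linarith
    have hlogle : Real.log (G' / φ) ≤ Real.log (G / φ) - 3 / 8 / φ := by
      calc Real.log (G' / φ) ≤ Real.log ((G / φ) * (1 - 3 / 8 / φ)) :=
            Real.log_le_log hG'pos hG'le
        _ = Real.log (G / φ) + Real.log (1 - 3 / 8 / φ) :=
            Real.log_mul hGpos.ne' hu.ne'
        _ ≤ Real.log (G / φ) - 3 / 8 / φ := by
            have := Real.log_le_sub_one_of_pos hu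
            linarith
    have hfin : 8 / 3 * φ * Real.log (G' / φ) ≤ 8 / 3 * φ * Real.log (G / φ) - 1 := by
      have h1 : 8 / 3 * φ * Real.log (G' / φ) ≤ 8 / 3 * φ * (Real.log (G / φ) - 3 / 8 / φ) :=
        mul_le_mul_of_nonneg_left hlogle (by positivity)
      have h2 : 8 / 3 * φ * (Real.log (G / φ) - 3 / 8 / φ)
          = 8 / 3 * φ * Real.log (G / φ) - 1 := by
        field_simp
      linarith
    linarith

open Classical in
theorem abstract_gen (hinv : ∀ a t, f (f a t) t = a) (hcomm : ∀ a s t, f (f a s) t = f (f a t) s)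
    (C : Finset α) (K : ℕ) (hθ : 1 ≤ θ) (hK : 8 * (n + 1) ≤ 2 ^ K) (v : α → ℕ)
    (hv : ∀ P ∈ C, v P ≤ n ∧ f P (v P) ∈ F ∧ RT (f P (v P)) (v P) ∧ LT (f P (v P)) (v P) ∧
      dep P (v P) = 0)
    (hcl : ∀ δ ∈ F, ∀ x y, x < y → y ≤ n → RT δ x → LT δ y → f δ x ∈ C → f δ y ∈ C →
      dep (f δ x) x < K * θ →
      f (f δ x) y ∈ F ∧ RT (f (f δ x) y) x ∧ LT (f (f δ x) y) y ∧
        dep (f δ y) x ≤ dep (f δ x) x + θ) :
    (C.card : ℝ) ≤ (3 + 16 / 3 * Real.log (n + 1)) * F.card := by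
  have hlogn : 0 ≤ Real.log (n + 1) := Real.log_nonneg (by
    have : (0 : ℝ) ≤ n := Nat.cast_nonneg n
    linarith)
  by_cases hC : C.Nonempty
  swap
  · rw [Finset.not_nonempty_iff_eq_empty] at hC
    rw [hC]
    simp only [Finset.card_empty, Nat.cast_zero]
    positivity
  have hF : 1 ≤ F.card := by
    obtain ⟨P, hP⟩ := hC
    exact Finset.card_pos.2 ⟨_, (hv P hP).2.1⟩
  have hφ : (1 : ℝ) ≤ F.card := by exact_mod_cast hF
  by_cases hG : (F.card : ℝ) ≤ GS n f RT LT dep F θ C
  · have h1 := removal n f RT LT dep F θ hθ hK hinv hcomm v hv hcl hF C.card C rfl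
      (Finset.Subset.refl _) hG
    -- upper bound for `G`
    have hG1 : GS n f RT LT dep F θ C ≤ (n + 1) * C.card := by
      unfold GS
      calc ∑ P ∈ C, gS n f RT LT dep F θ C P ≤ ∑ _P ∈ C, ((n : ℝ) + 1) :=
            Finset.sum_le_sum (fun P _ => gS_le n f RT LT dep F θ C P)
        _ = (n + 1) * C.card := by rw [Finset.sum_const, nsmul_eq_mul]; ring
    have hC1 : C.card ≤ F.card * (n + 1) := by
      have : C.card ≤ (F ×ˢ Finset.range (n + 1)).card := by
        refine Finset.card_le_card_of_injOn (fun P => (f P (v P), v P)) ?_ ?_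
        · intro P hP
          have hP' : P ∈ C := by simpa using hP
          obtain ⟨a1, a2, _⟩ := hv P hP'
          simp only [Finset.coe_product, Set.mem_prod, Finset.mem_coe, Finset.mem_range]
          exact ⟨a2, by omega⟩
        · intro P _ Q _ hPQ
          simp only [Prod.mk.injEq] at hPQ
          calc P = f (f P (v P)) (v P) := (hinv _ _).symm
            _ = f (f Q (v Q)) (v Q) := by rw [hPQ.1, hPQ.2]
            _ = Q := hinv _ _
      rwa [Finset.card_product, Finset.card_range] at this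
    have hC1' : (C.card : ℝ) ≤ F.card * (n + 1) := by exact_mod_cast hC1
    have hG2 : GS n f RT LT dep F θ C / F.card ≤ ((n : ℝ) + 1) ^ 2 := by
      rw [div_le_iff₀ (by linarith)]
      have hn : (0 : ℝ) ≤ (n : ℝ) + 1 := by positivity
      calc GS n f RT LT dep F θ C ≤ (n + 1) * C.card := hG1
        _ ≤ (n + 1) * (F.card * (n + 1)) := mul_le_mul_of_nonneg_left hC1' hn
        _ = ((n : ℝ) + 1) ^ 2 * F.card := by ring
    have hG3 : 0 < GS n f RT LT dep F θ C / F.card := by
      have : 0 < GS n f RT LT dep F θ C := by linarith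
      positivity
    have hlog : Real.log (GS n f RT LT dep F θ C / F.card) ≤ 2 * Real.log (n + 1) := by
      calc Real.log (GS n f RT LT dep F θ C / F.card) ≤ Real.log (((n : ℝ) + 1) ^ 2) :=
            Real.log_le_log hG3 hG2
        _ = 2 * Real.log (n + 1) := by rw [Real.log_pow]; norm_num
    have h2 : 8 / 3 * (F.card : ℝ) * Real.log (GS n f RT LT dep F θ C / F.card)
        ≤ 8 / 3 * (F.card : ℝ) * (2 * Real.log (n + 1)) :=
      mul_le_mul_of_nonneg_left hlog (by positivity)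
    nlinarith
  · push Not at hG
    have h1 := card_sub_le n f RT LT dep F θ hinv v hv (Finset.Subset.refl C)
    have h2 : (C.card : ℝ) ≤ 2 * F.card := by linarith
    nlinarith [mul_nonneg hlogn (show (0 : ℝ) ≤ F.card by linarith)]

end gen

/-- block 7 -/
theorem abstractS : AbstractS := by
  intro n f hinv hcomm RT LT dep F C K θ hθ hK v hv hcl
  exact abstract_gen n f RT LT dep F θ hinv hcomm C K hθ hK v hv hcl

end Pool.Agent.Helper26.SAW2
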